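import Pool.Agent.T9h90.SP.Spec

set_option autoImplicit false
set_option linter.unusedSectionVars false

/-! `RT^2_2(p)` implies `ADS`, for every separable `p`. -/

namespace Pool.Agent.T9h32.SP

open Pool.Agent.Helper617.RM Pool.Agent.T9h90.SP

universe u

/-- the order (`c = true`) or the dual order (`c = false`) -/
def Ro {M : Type u} (R : M → M → Prop) (c : Bool) (x y : M) : Prop :=
  (c = true → R x y) ∧ (c = false → R y x)

theorem ro_true {M : Type u} (R : M → M → Prop) (x y : M) : Ro R true x y ↔ R x y := by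
  simp [Ro]

theorem ro_false {M : Type u} (R : M → M → Prop) (x y : M) : Ro R false x y ↔ R y x := by
  simp [Ro]

theorem size_pos (p : Sep) : 1 ≤ p.size := by
  induction p with
  | one => exact le_rfl
  | node c a b iha ihb => exact le_trans iha (Nat.le_add_right _ _)

section

variable {N : L2Structure.{u}} [IsModelRCA0 N]

theorem ro_d0 {R : N.M → N.M → Prop} (hR : D0 (fun v => R (v 0) (v 1))) (c : Bool) :
    D0 (fun v => Ro R c (v 0) (v 1)) := by
  cases c
  · exact (hR.rel (Tm.var 1) (Tm.var 0)).congr fun v => (ro_false R _ _).symm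
  · exact hR.congr fun v => (ro_true R _ _).symm

theorem ro_lin {D : Set N.M} {R : N.M → N.M → Prop} (h : IsLinearOrd N D R) (c : Bool) :
    IsLinearOrd N D (Ro R c) := by
  cases c
  · exact
      { dom := fun x y hxy => (h.dom _ _ ((ro_false R _ _).1 hxy)).symm
        refl := fun x hx => (ro_false R _ _).2 (h.refl x hx)
        antisymm := fun x y h1 h2 => h.antisymm _ _ ((ro_false R _ _).1 h2) ((ro_false R _ _).1 h1)
        trans := fun x y z h1 h2 => (ro_false R _ _).2
          (h.trans _ _ _ ((ro_false R _ _).1 h2) ((ro_false R _ _).1 h1))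
        total := fun x hx y hy => (h.total y hy x hx).imp (ro_false R _ _).2 (ro_false R _ _).2 }
  · exact
      { dom := fun x y hxy => h.dom _ _ ((ro_true R _ _).1 hxy)
        refl := fun x hx => (ro_true R _ _).2 (h.refl x hx)
        antisymm := fun x y h1 h2 => h.antisymm _ _ ((ro_true R _ _).1 h1) ((ro_true R _ _).1 h2)
        trans := fun x y z h1 h2 => (ro_true R _ _).2
          (h.trans _ _ _ ((ro_true R _ _).1 h1) ((ro_true R _ _).1 h2))
        total := fun x hx y hy => (h.total x hx y hy).imp (ro_true R _ _).2 (ro_true R _ _).2 }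

theorem exists_top' {D : Set N.M} {T : N.M → N.M → Prop} (h : IsLinearOrd N D T) (x : ℕ → N.M)
    (n : ℕ) (hx : ∀ i, i < n + 1 → x i ∈ D) :
    ∃ i, i < n + 1 ∧ ∀ j, j < n + 1 → T (x j) (x i) := by
  induction n with
  | zero =>
    refine ⟨0, Nat.one_pos, fun j hj => ?_⟩
    have : j = 0 := by omega
    subst this
    exact h.refl _ (hx 0 hj)
  | succ n ih =>
    obtain ⟨i, hi, him⟩ := ih fun i hi => hx i (by omega)
    rcases h.total (x i) (hx i (by omega)) (x (n + 1)) (hx (n + 1) (by omega)) with h1 | h1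
    · refine ⟨n + 1, by omega, fun j hj => ?_⟩
      rcases Nat.lt_or_ge j (n + 1) with h2 | h2
      · exact h.trans _ _ _ (him j h2) h1
      · have : j = n + 1 := by omega
        subst this
        exact h.refl _ (hx _ hj)
    · refine ⟨i, by omega, fun j hj => ?_⟩
      rcases Nat.lt_or_ge j (n + 1) with h2 | h2
      · exact him j h2
      · have : j = n + 1 := by omega
        subst this
        exact h1

theorem exists_bd (x : ℕ → N.M) (n : ℕ) : ∃ B, ∀ i, i < n → x i ≤ B := by
  induction n with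
  | zero => exact ⟨0, fun i hi => absurd hi (Nat.not_lt_zero i)⟩
  | succ n ih =>
    obtain ⟨B, hB⟩ := ih
    refine ⟨max B (x n), fun i hi => ?_⟩
    rcases Nat.lt_or_ge i n with h | h
    · exact (hB i h).trans (le_max_left _ _)
    · have : i = n := by omega
      subst this
      exact le_max_right _ _

theorem mono_seq {D : Set N.M} {T : N.M → N.M → Prop} (h : IsLinearOrd N D T)
    (hT : D0 (fun v => T (v 0) (v 1))) {g : N.M → N.M} (hg : D0 (fun v => v 1 = g (v 0)))
    (hs : ∀ n, T (g (n + 1)) (g n) ∧ g (n + 1) ≠ g n) (i : N.M) :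
    ∀ j, i < j → T (g j) (g i) ∧ ¬ g j = g i := by
  intro j
  refine ind_S1 (P := fun j => i < j → T (g j) (g i) ∧ ¬ g j = g i) ?_ ?_ ?_ j
  · refine S1.congr (R := fun v => ∃ w, w = g (v 0) ∧ (i < v 0 → T w (g i) ∧ ¬ w = g i)) ?_
      fun v => by simp
    refine S1.ex (S1.and (D0.rel (R := fun k x => x = g k) hg (Tm.var 1) (Tm.var 0)).S1
      (D0.S1 (D0.imp (D0.lt (Tm.const i) (Tm.var 1)) (D0.and ?_ (D0.not ?_)))))
    · exact hT.rel (Tm.var 0) (Tm.const _)
    · exact D0.eq (Tm.var 0) (Tm.const _)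
  · intro h0
    exact absurd h0 (not_lt_of_ge (zero_le' i))
  · intro n ih hn
    rcases lt_or_eq_of_le (lt_add_one_iff'.1 hn) with h1 | h1
    · obtain ⟨h2, h3⟩ := ih h1
      refine ⟨h.trans _ _ _ (hs n).1 h2, fun h4 => ?_⟩
      have h5 := (hs n).1
      rw [h4] at h5
      exact h3 (h.antisymm _ _ h2 h5)
    · subst h1
      exact hs i

end

/-- (AD) `RT^2_2(p) → ADS` -/
theorem ad (hCP : S_CP.{u}) (hNC : S_NC.{u}) (hCS : S_CS.{u}) (hSQ : S_SQ.{u})
    (hTR : S_TR.{u}) : S_AD.{u} := by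
  classical
  intro N _ p hp D hD R hRin hlin hinf
  by_contra hcon
  have hR : D0 (fun v : Ctx N => R (v 0) (v 1)) := D0.of_codeRel hRin
  obtain ⟨f, hfd⟩ : ∃ f : N.M → N.M → Bool, ∀ x y, f x y = decide (R x y) := ⟨_, fun _ _ => rfl⟩
  have hf : DF N f := hR.congr fun v => by simp [hfd]
  have hDu : Unb D := by
    intro b
    obtain ⟨x, hx, hb⟩ := not_isFin_iff.1 hinf (b + 1)
    exact ⟨x, hx, lt_of_lt_of_le (lt_add_one_iff'.2 le_rfl) hb⟩
  have hno : ∀ (c : Bool) (g : N.M → N.M), D0 (fun v => v 1 = g (v 0)) → (∀ n, g n ∈ D) →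
      (∀ n, Ro R c (g (n + 1)) (g n) ∧ g (n + 1) ≠ g n) → False := by
    intro c g hg hgD hs
    have h1 := fun i => mono_seq (ro_lin hlin c) (ro_d0 hR c) hg hs i
    refine hcon ⟨g, codeRel_mem_D0 (R := fun x y => y = g x) hg, hgD, ?_⟩
    cases c
    · exact Or.inl fun i j hij => ⟨(ro_false R _ _).1 (h1 i j hij).1, fun e => (h1 i j hij).2 e.symm⟩
    · exact Or.inr fun i j hij => ⟨(ro_true R _ _).1 (h1 i j hij).1, fun e => (h1 i j hij).2 e.symm⟩
  have claim : ∀ q : Sep, ∀ H ∈ N.Sets, H ⊆ D → Unb H → ∃ x, Copy f H q x := by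
    intro q
    induction q with
    | one =>
      intro H hH hHD hU
      obtain ⟨y, hy, -⟩ := hU 0
      refine ⟨fun _ => y, fun i _ => hy, fun i j hij hj => ?_⟩
      have : j < 1 := hj
      omega
    | node c a b iha ihb =>
      intro H hH hHD hU
      by_contra hno'
      have hTlin : IsLinearOrd N D (Ro R c) := ro_lin hlin c
      have hTd : D0 (fun v : Ctx N => Ro R c (v 0) (v 1)) := ro_d0 hR c
      have hcol : ∀ x y, x ∈ D → y ∈ D → x < y → Ro R c x y → f x y = c := by
        intro x y hx hy hxy h1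
        rw [hfd]
        cases c
        · rw [decide_eq_false_iff_not]
          intro h2
          exact hxy.ne (hlin.antisymm _ _ h2 ((ro_false R _ _).1 h1))
        · rw [decide_eq_true_iff]
          exact (ro_true R _ _).1 h1
      have hKS : S1 (fun v : Ctx N => ∃ x, Copy f H a x ∧ (∃ i, i < a.size ∧ x i = v 0) ∧
          ∀ j, j < a.size → Ro R c (x j) (v 0)) :=
        (hCS N f hf a (fun _ y => y ∈ H) (fun u y => Ro R c y u) (D0.mem (Tm.var 1) hH)
          (hTd.rel (Tm.var 1) (Tm.var 0))).2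
      obtain ⟨K, hK⟩ : ∃ K : N.M → Prop, ∀ u, K u ↔ ∃ x, Copy f H a x ∧
          (∃ i, i < a.size ∧ x i = u) ∧ ∀ j, j < a.size → Ro R c (x j) u := ⟨_, fun _ => Iff.rfl⟩
      have hKS' : S1 (fun v : Ctx N => K (v 0)) := hKS.congr fun v => (hK _).symm
      have hKH : ∀ u, K u → u ∈ H := by
        intro u hu
        obtain ⟨x, hx, ⟨i, hi, hiu⟩, -⟩ := (hK u).1 hu
        rw [← hiu]
        exact hx.1 i hi
      have hKex : ∀ H' ∈ N.Sets, H' ⊆ H → Unb H' → ∃ u ∈ H', K u := by
        intro H' hH' hsub hU'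
        obtain ⟨x, hx⟩ := iha H' hH' (hsub.trans hHD) hU'
        obtain ⟨n, hn⟩ : ∃ n, a.size = n + 1 := ⟨a.size - 1, by have := size_pos a; omega⟩
        obtain ⟨i, hi, him⟩ := exists_top' hTlin x n fun i hi => hHD (hsub (hx.1 i (by omega)))
        refine ⟨x i, hx.1 i (by omega), (hK _).2 ⟨x, ⟨fun j hj => hsub (hx.1 j hj), hx.2⟩,
          ⟨i, by omega, rfl⟩, fun j hj => him j (by omega)⟩⟩
      have hstep : ∀ u, K u → ∃ u', K u' ∧ (Ro R c u' u ∧ u' ≠ u) := by
        intro u hu
        obtain ⟨x, hx, ⟨i, hi, hiu⟩, hmax⟩ := (hK u).1 hu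
        have h1 : ¬ Unb (Nc f c H a.size x) := by
          intro hunb
          obtain ⟨y, hy⟩ := ihb _ (hNC N f hf c H hH a.size x) (fun w hw => hHD hw.1) hunb
          exact hno' ⟨_, (hCP N.M f H c a b).1 x y hx hy⟩
        obtain ⟨B, hB⟩ : ∃ B, ∀ w ∈ Nc f c H a.size x, ¬ B < w := by
          unfold Unb at h1
          push Not at h1
          obtain ⟨B, hB⟩ := h1
          exact ⟨B, fun w hw => not_lt_of_ge (hB w hw)⟩
        obtain ⟨B', hB'⟩ := exists_bd x a.size
        have hH' : {y | y ∈ H ∧ (Ro R c y u ∧ ¬ y = u)} ∈ N.Sets := by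
          refine comp_D0 (P := fun y => y ∈ H ∧ (Ro R c y u ∧ ¬ y = u)) (D0.and
            (D0.mem (Tm.var 0) hH) (D0.and ?_ (D0.not ?_)))
          · exact hTd.rel (Tm.var 0) (Tm.const u)
          · exact D0.eq (Tm.var 0) (Tm.const u)
        have hU' : Unb {y | y ∈ H ∧ (Ro R c y u ∧ ¬ y = u)} := by
          intro b0
          obtain ⟨y, hy, hby⟩ := hU (max b0 (max B B'))
          have hb1 : B < y := lt_of_le_of_lt ((le_max_left _ _).trans (le_max_right _ _)) hby
          have hb2 : B' < y := lt_of_le_of_lt ((le_max_right _ _).trans (le_max_right _ _)) hby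
          have hyu : u < y := by
            rw [← hiu]
            exact lt_of_le_of_lt (hB' i hi) hb2
          have hnT : ¬ Ro R c u y := by
            intro hT
            refine hB y ⟨hy, fun j hj => ⟨lt_of_le_of_lt (hB' j hj) hb2, ?_⟩⟩ hb1
            exact hcol _ _ (hHD (hx.1 j hj)) (hHD hy) (lt_of_le_of_lt (hB' j hj) hb2)
              (hTlin.trans _ _ _ (hmax j hj) hT)
          refine ⟨y, ⟨hy, ?_, hyu.ne'⟩, lt_of_le_of_lt (le_max_left _ _) hby⟩
          rcases hTlin.total u (hHD (hKH u hu)) y (hHD hy) with h | h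
          · exact absurd h hnT
          · exact h
        obtain ⟨u', hu', hK'⟩ := hKex _ hH' (fun y hy => hy.1) hU'
        exact ⟨u', hK', hu'.2⟩
      obtain ⟨u0, -, hK0⟩ := hKex H hH (fun _ h => h) hU
      obtain ⟨g, hg, hgp⟩ := hSQ N K (fun x y => Ro R c y x ∧ y ≠ x) hKS'
        (D0.S1 (D0.and (hTd.rel (Tm.var 1) (Tm.var 0)) (D0.not (D0.eq (Tm.var 1) (Tm.var 0)))))
        ⟨u0, hK0⟩ hstep
      exact hno c g hg (fun n => hHD (hKH _ (hgp n).1)) (fun n => (hgp n).2)
  obtain ⟨H', hH', hsub, hunb, hn⟩ := hTR N p hp f hf D hD hDu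
  exact hn (claim p H' hH' hsub hunb)

end Pool.Agent.T9h32.SP
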