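import Pool.Agent.T9h90.SP.Defs

set_option autoImplicit false

/-! All separable permutations with at most four letters but two are in the class. -/

namespace Pool.Agent.T9h32.SP

open Pool.Agent.T9h90.SP

/-- membership in `Spine` -/
def spb : Sep → Bool
  | .one => true
  | .node _ .one a => spb a
  | .node _ (.node _ _ _) _ => false

theorem spb_sound : ∀ p : Sep, spb p = true → Spine p
  | .one, _ => .one
  | .node c .one a, h => .node c a (spb_sound a h)
  | .node _ (.node _ _ _) _, h => by simp [spb] at h

/-- membership in `Good c` -/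
def gob (c : Bool) : Sep → Bool
  | .one => true
  | .node d .one v => gob c v
  | .node d (.node e a b) v => decide (d = c) && spb (.node e a b) && gob c v

theorem gob_sound (c : Bool) : ∀ p : Sep, gob c p = true → Good c p
  | .one, _ => .one
  | .node d .one v, h => by
    have hv := gob_sound c v h
    by_cases hd : d = c
    · subst hd
      exact .same .one v .one hv
    · have : d = !c := by cases d <;> cases c <;> simp_all
      subst this
      exact .opp v hv
  | .node d (.node e a b) v, h => by
    simp only [gob, Bool.and_eq_true, decide_eq_true_eq] at h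
    obtain ⟨⟨h1, h2⟩, h3⟩ := h
    subst h1
    exact .same _ v (spb_sound _ h2) (gob_sound d v h3)

/-- all trees with `n` leaves (`f` = fuel) -/
def trees : ℕ → ℕ → List Sep
  | 0, _ => []
  | f + 1, n => (if n = 1 then [Sep.one] else []) ++
      (List.range n).flatMap fun i =>
        if i = 0 then [] else (trees f i).flatMap fun a => (trees f (n - i)).flatMap fun b =>
          [Sep.node true a b, Sep.node false a b]

theorem size_pos' (p : Sep) : 1 ≤ p.size := by
  induction p with
  | one => exact le_rfl
  | node c a b iha ihb => exact le_trans iha (Nat.le_add_right _ _)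

theorem mem_trees : ∀ (f : ℕ) (p : Sep), p.size ≤ f → p ∈ trees f p.size
  | 0, p, h => absurd (size_pos' p) (by omega)
  | f + 1, .one, _ => by simp [trees, Sep.size]
  | f + 1, .node c a b, h => by
    have ha := size_pos' a
    have hb := size_pos' b
    have hs : (Sep.node c a b).size = a.size + b.size := rfl
    rw [hs] at h ⊢
    have h1 := mem_trees f a (by omega)
    have h2 := mem_trees f b (by omega)
    unfold trees
    rw [List.mem_append]
    right
    rw [List.mem_flatMap]
    refine ⟨a.size, List.mem_range.2 (by omega), ?_⟩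
    rw [if_neg (by omega), List.mem_flatMap]
    refine ⟨a, h1, ?_⟩
    rw [List.mem_flatMap]
    refine ⟨b, by rwa [Nat.add_sub_cancel_left], ?_⟩
    cases c <;> simp

/-- the search -/
def chk (n : ℕ) (p : Sep) : Bool :=
  (n == 4 && (p.val 0 == 1 && p.val 1 == 2 && p.val 2 == 0 && p.val 3 == 3)) ||
  (n == 4 && (p.val 0 == 2 && p.val 1 == 1 && p.val 2 == 3 && p.val 3 == 0)) ||
  (trees n n).any fun q => (List.range n).all (fun i => q.val i == p.val i) &&
    (gob true q || gob false q) && (q.size == n)

theorem chk_all : ∀ n ∈ [1, 2, 3, 4], ∀ p ∈ trees n n, chk n p = true := by decide +kernel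

theorem ex4 (p : Sep) (h : p.size ≤ 4)
    (h1 : ¬ (p.size = 4 ∧ p.val 0 = 1 ∧ p.val 1 = 2 ∧ p.val 2 = 0 ∧ p.val 3 = 3))
    (h2 : ¬ (p.size = 4 ∧ p.val 0 = 2 ∧ p.val 1 = 1 ∧ p.val 2 = 3 ∧ p.val 3 = 0)) :
    ∃ (c : Bool) (q : Sep), q.size = p.size ∧ (∀ i, i < p.size → q.val i = p.val i) ∧
      Good c q := by
  have hp := size_pos' p
  have hm : p.size ∈ [1, 2, 3, 4] := by
    simp only [List.mem_cons, List.not_mem_nil, or_false]
    omega
  have hc := chk_all _ hm p (mem_trees _ p le_rfl)
  unfold chk at hc
  simp only [Bool.or_eq_true, Bool.and_eq_true, beq_iff_eq, List.any_eq_true, List.all_eq_true,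
    List.mem_range] at hc
  rcases hc with (hc | hc) | ⟨q, -, ⟨h3, h4⟩, h5⟩
  · exact absurd ⟨hc.1, hc.2.1.1.1, hc.2.1.1.2, hc.2.1.2, hc.2.2⟩ h1
  · exact absurd ⟨hc.1, hc.2.1.1.1, hc.2.1.1.2, hc.2.1.2, hc.2.2⟩ h2
  · rcases h4 with h4 | h4
    · exact ⟨true, q, h5, h3, gob_sound _ q h4⟩
    · exact ⟨false, q, h5, h3, gob_sound _ q h4⟩

end Pool.Agent.T9h32.SP
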