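import Pool.Agent.T9h90.SP.Spec

set_option autoImplicit false

/-! Dependent choice for `Σ₁` relations in a model of `RCA₀`. -/

namespace Pool.Agent.T9h32.SP

open Pool.Agent.Helper617.RM Pool.Agent.T9h90.SP

universe u

section

variable {N : L2Structure.{u}} [IsModelRCA0 N]

theorem cm_zero : CM (fun _ : Ctx N => (fun _ => (0 : N.M) : Ctx N)) := fun _ => Tm.zero

/-- matrix of a unary `Σ₁` relation -/
theorem un {K : N.M → Prop} (h : S1 (fun v => K (v 0))) :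
    ∃ Q : N.M → N.M → Prop, D0 (fun v => Q (v 0) (v 1)) ∧ ∀ y, K y ↔ ∃ k, Q y k := by
  obtain ⟨Q, hQ, h⟩ := h
  refine ⟨fun y k => Q (cons y (fun _ => 0)) k, ?_, fun y => h (cons y (fun _ => 0))⟩
  exact hQ.comp (g := fun w => cons (w 1) (cons (w 0) (fun _ => 0)))
    (CM.cons (Tm.var 1) (CM.cons (Tm.var 0) cm_zero))

/-- matrix of a binary `Σ₁` relation -/
theorem bi {R : N.M → N.M → Prop} (h : S1 (fun v => R (v 0) (v 1))) :
    ∃ Q : N.M → N.M → N.M → Prop, D0 (fun v => Q (v 0) (v 1) (v 2)) ∧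
      ∀ x y, R x y ↔ ∃ k, Q x y k := by
  obtain ⟨Q, hQ, h⟩ := h
  refine ⟨fun x y k => Q (cons x (cons y (fun _ => 0))) k, ?_,
    fun x y => h (cons x (cons y (fun _ => 0)))⟩
  exact hQ.comp (g := fun w => cons (w 2) (cons (w 0) (cons (w 1) (fun _ => 0))))
    (CM.cons (Tm.var 2) (CM.cons (Tm.var 0) (CM.cons (Tm.var 1) cm_zero)))

/-- `u` codes a point together with a bound for a witness -/
def V (Q : N.M → N.M → Prop) (u : N.M) : Prop :=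
  ∃ y, y ≤ u ∧ ∃ w, w ≤ u ∧ (u = pr y w ∧ ∃ k, k ≤ w ∧ Q y k)

theorem V_D0 {Q : N.M → N.M → Prop} (hQ : D0 (fun v => Q (v 0) (v 1))) :
    D0 (fun v : Ctx N => V Q (v 0)) := by
  refine D0.bexLe (Tm.var 0) (D0.bexLe (Tm.var 1) (D0.and ?_ (D0.bexLe (Tm.var 0) ?_)))
  · exact D0.eq (Tm.var 2) ((Tm.var 1).pr (Tm.var 0))
  · exact hQ.rel (Tm.var 2) (Tm.var 0)

/-- one step -/
def B (Q : N.M → N.M → Prop) (S : N.M → N.M → N.M → Prop) (u u' : N.M) : Prop :=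
  ∃ y, y ≤ u ∧ ∃ w, w ≤ u ∧ (u = pr y w ∧ ∃ y', y' ≤ u' ∧ ∃ w', w' ≤ u' ∧
    (u' = pr y' w' ∧ ((∃ k, k ≤ w' ∧ Q y' k) ∧ ∃ k, k ≤ w' ∧ S y y' k)))

theorem B_D0 {Q : N.M → N.M → Prop} (hQ : D0 (fun v => Q (v 0) (v 1)))
    {S : N.M → N.M → N.M → Prop} (hS : D0 (fun v => S (v 0) (v 1) (v 2))) :
    D0 (fun v : Ctx N => B Q S (v 0) (v 1)) := by
  refine D0.bexLe (Tm.var 0) (D0.bexLe (Tm.var 1) (D0.and ?_ (D0.bexLe (Tm.var 3)
    (D0.bexLe (Tm.var 4) (D0.and ?_ (D0.and (D0.bexLe (Tm.var 0) ?_)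
      (D0.bexLe (Tm.var 0) ?_)))))))
  · exact D0.eq (Tm.var 2) ((Tm.var 1).pr (Tm.var 0))
  · exact D0.eq (Tm.var 5) ((Tm.var 1).pr (Tm.var 0))
  · exact hQ.rel (Tm.var 2) (Tm.var 0)
  · exact hS.comp (g := fun w => cons (w 4) (cons (w 2) (cons (w 0) w)))
      (CM.cons (Tm.var 4) (CM.cons (Tm.var 2) (CM.cons (Tm.var 0) CM.id)))

theorem exists_step {Q : N.M → N.M → Prop} (hQ : D0 (fun v => Q (v 0) (v 1)))
    {S : N.M → N.M → N.M → Prop} (hS : D0 (fun v => S (v 0) (v 1) (v 2)))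
    (h : ∀ u, V Q u → ∃ u', B Q S u u') :
    ∃ G : N.M → N.M, D0 (fun v => v 1 = G (v 0)) ∧ ∀ u, V Q u → B Q S u (G u) := by
  have hB := B_D0 hQ hS
  have hV := V_D0 hQ
  have key : ∀ u, ∃ u', (V Q u ∧ (B Q S u u' ∧ ∀ x, x < u' → ¬ B Q S u x)) ∨
      (¬ V Q u ∧ u' = 0) := by
    intro u
    by_cases hu : V Q u
    · obtain ⟨u', hu'⟩ := h u hu
      obtain ⟨n, -, h1, h2⟩ := lnp_D0 (P := fun x => B Q S u x)
        (D0.rel (R := fun a b => B Q S a b) hB (Tm.const u) (Tm.var 0)) u' hu'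
      exact ⟨n, Or.inl ⟨hu, h1, h2⟩⟩
    · exact ⟨0, Or.inr ⟨hu, rfl⟩⟩
  choose G hG using key
  refine ⟨G, ?_, fun u hu => ?_⟩
  · refine D0.congr (R := fun v => (V Q (v 0) ∧ (B Q S (v 0) (v 1) ∧
      ∀ x, x < v 1 → ¬ B Q S (v 0) x)) ∨ (¬ V Q (v 0) ∧ v 1 = 0)) ?_ fun v => ?_
    · refine D0.or (D0.and hV (D0.and hB (D0.ball (Tm.var 1) (D0.not ?_))))
        (D0.and (D0.not hV) (D0.eq (Tm.var 1) Tm.zero))
      exact D0.rel (R := fun a b => B Q S a b) hB (Tm.var 1) (Tm.var 0)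
    · constructor
      · rintro (⟨h1, h2, h3⟩ | ⟨h1, h2⟩)
        · rcases hG (v 0) with ⟨_, h5, h6⟩ | ⟨h4, _⟩
          · rcases lt_trichotomy (v 1) (G (v 0)) with h7 | h7 | h7
            · exact absurd h2 (h6 _ h7)
            · exact h7
            · exact absurd h5 (h3 _ h7)
          · exact absurd h1 h4
        · rcases hG (v 0) with ⟨h4, _⟩ | ⟨_, h5⟩
          · exact absurd h4 h1
          · rw [h2, h5]
      · intro h1
        rw [h1]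
        exact hG (v 0)
  · rcases hG u with ⟨_, h5, _⟩ | ⟨h4, _⟩
    · exact h5
    · exact absurd hu h4

end

/-- (SQ) dependent choice for `Σ₁` relations -/
theorem sq : S_SQ.{u} := by
  intro N _ K R hK hR hex hstep
  obtain ⟨a, ha⟩ := hex
  obtain ⟨Q, hQ, hKQ⟩ := un hK
  obtain ⟨S, hS, hRS⟩ := bi hR
  have hst : ∀ u, V Q u → ∃ u', B Q S u u' := by
    rintro u ⟨y, hy, w, hw, hu, k, -, hk⟩
    obtain ⟨y', h1, h2⟩ := hstep y ((hKQ y).2 ⟨k, hk⟩)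
    obtain ⟨k1, hk1⟩ := (hKQ y').1 h1
    obtain ⟨k2, hk2⟩ := (hRS y y').1 h2
    exact ⟨pr y' (max k1 k2), y, hy, w, hw, hu, y', fst_le_pr _ _, max k1 k2, snd_le_pr _ _, rfl,
      ⟨k1, le_max_left _ _, hk1⟩, k2, le_max_right _ _, hk2⟩
  obtain ⟨G, hG, hGB⟩ := exists_step hQ hS hst
  obtain ⟨k0, hk0⟩ := (hKQ a).1 ha
  obtain ⟨f, hf, hf0, hfs⟩ := exists_recursion hG (pr a k0)
  have hVf : ∀ n, V Q (f n) := by
    intro n
    refine ind_S1 (P := fun n => V Q (f n)) ?_ ?_ ?_ n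
    · refine S1.congr (R := fun v => ∃ u, u = f (v 0) ∧ V Q u) (S1.ex (S1.and ?_ ?_))
        fun v => by simp
      · exact (D0.rel (R := fun k x => x = f k) hf (Tm.var 1) (Tm.var 0)).S1
      · exact (V_D0 hQ).S1
    · rw [hf0]
      exact ⟨a, fst_le_pr _ _, k0, snd_le_pr _ _, rfl, k0, le_rfl, hk0⟩
    · intro n hn
      rw [hfs]
      obtain ⟨y, hy, w, hw, hu, y', hy', w', hw', hu', h1, h2⟩ := hGB _ hn
      exact ⟨y', hy', w', hw', hu', h1⟩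
  have hfst : ∀ n, ∃ y, ∃ w, f n = pr y w := by
    intro n
    obtain ⟨y, hy, w, hw, hu, h1⟩ := hVf n
    exact ⟨y, w, hu⟩
  choose g w hgw using hfst
  refine ⟨g, ?_, fun n => ⟨?_, ?_⟩⟩
  · refine d0_of_D1 (R := fun n y => y = g n) ?_ ?_
    · refine S1.congr (R := fun v => ∃ u, u = f (v 0) ∧ ∃ z, z ≤ u ∧ u = pr (v 1) z)
        (S1.ex (S1.and ?_ (D0.S1 (D0.bexLe (Tm.var 0) ?_)))) fun v => ?_
      · exact (D0.rel (R := fun k x => x = f k) hf (Tm.var 1) (Tm.var 0)).S1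
      · exact D0.eq (Tm.var 1) ((Tm.var 3).pr (Tm.var 0))
      · constructor
        · rintro ⟨u, hu, z, -, hz⟩
          exact (pr_inj (hz.symm.trans (hu.trans (hgw _)))).1
        · intro h
          exact ⟨f (v 0), rfl, w (v 0), by rw [hgw (v 0)]; exact snd_le_pr _ _,
            by rw [h]; exact hgw (v 0)⟩
    · refine S1.congr (R := fun v => ∃ u, u = f (v 0) ∧ ¬ ∃ z, z ≤ u ∧ u = pr (v 1) z)
        (S1.ex (S1.and ?_ (D0.S1 (D0.not (D0.bexLe (Tm.var 0) ?_))))) fun v => ?_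
      · exact (D0.rel (R := fun k x => x = f k) hf (Tm.var 1) (Tm.var 0)).S1
      · exact D0.eq (Tm.var 1) ((Tm.var 3).pr (Tm.var 0))
      · constructor
        · rintro ⟨u, hu, h1⟩ h
          refine h1 ⟨w (v 0), ?_, ?_⟩
          · rw [hu, hgw (v 0)]
            exact snd_le_pr _ _
          · rw [hu, h]
            exact hgw (v 0)
        · intro h
          refine ⟨f (v 0), rfl, ?_⟩
          rintro ⟨z, -, hz⟩
          exact h (pr_inj (hz.symm.trans (hgw _))).1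
  · obtain ⟨y, hy, w1, hw, hu, k, hk, h1⟩ := hVf n
    have := (pr_inj (hu.symm.trans (hgw n))).1
    subst this
    exact (hKQ _).2 ⟨k, h1⟩
  · have h0 := hGB _ (hVf n)
    rw [← hfs] at h0
    obtain ⟨y, hy, w1, hw1, hu, y', hy', w', hw', hu', ⟨k1, -, h1⟩, k2, -, h2⟩ := h0
    have e1 := (pr_inj (hu.symm.trans (hgw n))).1
    have e2 := (pr_inj (hu'.symm.trans (hgw (n + 1)))).1
    rw [← e1, ← e2]
    exact (hRS _ _).2 ⟨k2, h2⟩

end Pool.Agent.T9h32.SP
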